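import Pool.Agent.Run7.h697.TW.Mixed

set_option autoImplicit false

/-! # The motivic monodromy conjecture for products of ideals of maximal minors along the branches of
# a forest

Let `V` be the set of nodes of a finite rooted forest, `dep v` the depth of the node `v` (the number
of its proper ancestors), and let a vector `x_v` of `n v` variables be attached to each node `v`,
where `n` is constant on the trees and `dep v < n v` (`Forest`). For a node `v` let `I_v` be the
ideal of the maximal minors of the `(dep v + 1) × n v` matrix whose rows are the vectors of the
nodes of the branch from the root to `v` (`Forest.minor`). So `I_v` is the ideal of the coordinates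
of `x_v`, if `v` is a root, and in general the matrices of two nodes have the rows of their common
ancestors in common. In the case of a forest without branching, the minors of a tree with `m` nodes
are the Plücker coordinates on the flags of subspaces of the dimensions `1, …, m` of `ℂ ^ n`, and
their products, with the exponents `e v`, are the generating sections of the line bundle `𝒪(e)` on
the flag variety. Let `e v ≥ 1`, `v ∈ V`, be exponents, and let `I = ∏ v, I_v ^ e v`. It is
generated by the products of minors, `e v` of them from the matrix of `v`, for each `v`
(`Forest.prods e`).

The resolution. Let `Y` be obtained from the affine space of the `x` by the following blow-ups, in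
the order of the depths of the nodes `v`: the centre is the strict transform of the set where `x_v`
lies in the span of the vectors of the proper ancestors of `v`. Let `E_v` be the exceptional
divisor, `z_v` a local equation. By induction, after the blow-ups for the ancestors the span of
their vectors extends to a subbundle of rank `dep v` (the wedge product of these vectors is the
product of the local equations of their divisors and of a nowhere vanishing section), the class of
`x_v` modulo this subbundle is a vector whose `n v - dep v` coordinates are local coordinates,
separate for the different nodes of the same depth, and the centre is the set of its zeros. So all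
the centres are smooth of codimension `n v - dep v`, the divisors `E_v` cross normally, the
multiplicity of the Jacobian determinant along `E_v` is `ν_v - 1` with `ν_v = n v - dep v`
(`Forest.codim`), and `I_w` becomes the ideal of the divisor `∑ E_v`, over the nodes `v` of the
branch which ends at `w` (`Forest.Le v w`). So `Y` is a principalization of `I`, with the components
`E_v`, of multiplicity `N_v = ∑ e w`, over the nodes `w` whose branch contains `v` (`Forest.ord`).
By the formula of Denef and Loeser the motivic zeta function of `I` (global, or local at the origin)
is of the form `dlZ`.

The proof. A residue computation at a point of `E_v` at which the divisor is a Rees divisor gives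
the roots (`rees_prod`). The chart (`xi`): let `c = dep v`. The vectors of the nodes `u ≠ v` are
free, at the base point `x_u = lam` times the unit vector of index `dep u`; the vector of `v` is the
combination of the vectors of its `c` proper ancestors with the coefficients `x_{v,0}, …, x_{v,c -
1}`, plus `z` times the vector `(0, …, 0, 1, x_{v,c + 1}, …, x_{v,n - 1})`, `z = x_{v,c}`. A minor
of a branch which contains `v` is `z` times the minor in which the row of `v` is replaced by this
vector, which does not vanish at the base point for the first columns (`minor_eq`, `cc_det_ne`), and
the quotients of the minors of the branch of `v` with the columns `0, …, c - 1, j` and `0, …, c - 1,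
c` are the coordinates `x_{v,j}` (`quot_det`). So `E_v` is a Rees divisor of `I` (`chart_exists`).
For the local functional equations the base point has to lie over a point of the affine space at
which a given polynomial `H` with `H(0) ≠ 0` does not vanish: this is so for a general number `lam`
(`exists_base`). -/

namespace Pool.Agent.Results.MP_4e5fcd_ag.BranchMinors

open Pool.Agent.W574.SM Pool.Agent.W574.LM Pool.Agent.TH192.DT Pool.Agent.R852.BM
  Pool.Agent.Run7.h697.TW

/-- **The motivic monodromy conjecture for products of powers of ideals of maximal minors along the
branches of a forest** `I = ∏ v, I_v ^ e v`, `e v ≥ 1`. Let `ν_v = n v - dep v` (`Forest.codim`) and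
let `N_v` (`Forest.ord`) be the sum of the `e w` over the nodes `w` whose branch contains `v`. Every
sum `dlZ` of the form of the formula of Denef and Loeser, with arbitrary coefficients in a ring (the
classes of the strata), lies in the ring generated by `T` and the `1 / (1 - u ^ (-ν_v) T ^ (N_v))`,
and all the numbers `-ν_v / N_v` are roots of every `b` for which `H b` satisfies a functional
equation of the generators of `I` for some polynomial `H` with `H(0) ≠ 0`, in particular of the
local Bernstein-Sato polynomial of `I` at the origin, and (`H = 1`) of the global one. -/
theorem result {V : Type} [Fintype V] [DecidableEq V] (F : Forest V) (e : V → ℕ)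
    (he : ∀ v, e v ≠ 0) :
    (∀ (R : Type) [CommRing R] (u : Rˣ) (χ : Finset {v // 0 < F.ord e v} → R),
      dlZ u F.codim (F.ord e) χ ∈ ratU u (pairs F.codim (F.ord e) : Set (ℤ × ℤ))) ∧
    ∀ q ∈ pairs F.codim (F.ord e), q.1 < 0 ∧ 0 < q.2 ∧
      ∀ (b : Polynomial ℂ) (H : MvPolynomial F.Var ℂ), MvPolynomial.constantCoeff H ≠ 0 →
        IsLocEq H (F.prods e) b → b.eval ((q.1 : ℂ) / q.2) = 0 := by
  refine ⟨fun R _ u χ => dlZ_mem u _ _ χ, fun q hq => ?_⟩
  have h2 := pairs_sign _ _ F.codim_pos q hq
  exact ⟨h2.1, h2.2, fun b H hH hb => pairs_roots _ _ F.codim_pos b
    (one_ideal_roots F e he b H hH hb) q hq⟩

end Pool.Agent.Results.MP_4e5fcd_ag.BranchMinors
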