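import Pool.Agent.Run7.h768.QI.Mon

set_option autoImplicit false

/-! # The motivic monodromy conjecture for ideals: linear forms and parabolas suffice

For every nonzero ideal `I ⊂ ℂ[x_1, ..., x_n]` whose zero scheme contains `0` we construct an ideal `I'` of a
polynomial ring in `m = n + κ` variables which is generated by linear forms and by polynomials
`y_a - x_a ^ 2`, where the `x_a`, `y_a` are different variables (`Par`, and all `F_j(0) = 0`), such that Q1 for
`I'` implies Q1 for `I` (for the poles which are not integers; for integers Q1 is trivial). So Q1 holds for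
all ideals, in any number of variables, if and only if it holds for these special ideals.

Construction. The step is `I ↦ (I, w - u)`, `w` a new variable, `u ∈ ℂ[x]`, `u(0) = 0`. Every polynomial is
computed from the variables and the constants by additions and by squarings, and a new variable `w` for
every intermediate result replaces all the other generators by affine linear ones.

Zeta functions. By a classification of the jets, without resolution of singularities, one obtains the exact
formula `(1 - 𝕃 ^ (-κ) T) (Z_{I'}(T) - 𝕃 ^ (-m)) = 𝕃 ^ (-κ) (1 - T) (Z_I(𝕃 ^ (-κ) T) - 𝕃 ^ (-n))` for the local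
motivic zeta functions at `0`. So the negative poles are shifted by `κ`.

Monodromy. For a point `y = (a, c)` of the normal cone `C_Y` outside `Y`, given by the origin `a` and the
leading coefficients `c_l` of `f_l(φ)`, let `X_m` be the variety of the `m`-jets `φ` with origin `a` and
`f_l(φ) = c_l t ^ m + ...`. The Lefschetz number of `M_y ^ m` is `χ(X_m) = ∑_{N_j | m} N_j χ(E_j° ∩ ψ⁻¹(e))`, so that
the zeros and poles of `Z^mon_{I, e}(t) = ∏ (1 - t ^ N_j) ^ χ(E_j° ∩ ψ⁻¹(e))` are the poles of `∑ χ(X_m) t ^ m`. For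
`(I, w - u)` the points with `c ≠ 0` have the same contact loci as for `I`; the new points, `c = 0` and the
coefficient of `w - u` not zero, have the zeta function `1 - t`, by an action of the multiplicative group. -/

namespace Pool.Agent.Results.MP_4e5fcd_ag.LinearAndParabolasLocal

open MvPolynomial Pool.Agent.W428.MOT Pool.Agent.N101.CB Pool.Agent.Run7.h768.QI

/-- **Linear forms and parabolas suffice for the motivic monodromy conjecture for ideals.**
Let `χ : 𝓜 → ℂ` be a ring homomorphism with `χ(𝕃) = 1`, for instance the Euler characteristic.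

First part: for all `f_1, ..., f_r` in `n` variables, not all zero, with `f_j(0) = 0`, there are `κ`, `π` and
`F_1, ..., F_s` in `m = n + κ` variables with `Par F`, not all zero, with `F_j(0) = 0`, such that
(1) `(1 - 𝕃 ^ (-κ) T) (Z_F(T) - 𝕃 ^ (-m)) = 𝕃 ^ (-κ) (1 - T) (Z_f(𝕃 ^ (-κ) T) - 𝕃 ^ (-n))` for the local motivic zeta
functions `Z_f = ZmotI f {0}` at the origin (`DI0 f = Z_f - 𝕃 ^ (-n)`, `cYk κ = 𝕃 ^ (-κ)`, `rsk κ` is `T ↦ 𝕃 ^ (-κ) T`);
(2) if `s₀ < 0` is a pole of `Z_f` then `s₀ - κ` is a pole of `Z_F`;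
(3) for `ω ≠ 1`: if `ω` is a zero or pole of the monodromy zeta function of `F` at a point of `C \ Y` over `a` then
the same holds for `f` and a point over `a ∘ π` (the coordinates `π 0, ..., π (n - 1)` of `a`), and for every such point
of `f` over `a'` there is such a point of `F` over some `a` with `a ∘ π = a'` (`EigRel`);
(4) Q1 for `F` implies Q1 for `f` (`MonFor`, poles which are not integers).

Second part: Q1 holds for all `f`, not all zero, with `f_j(0) = 0`, in any number of variables, if and only if it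
holds for those with `Par f`. -/
theorem result (χ : MK ℂ →+* ℂ) (hχ : χ ((Lu ℂ : (MK ℂ)ˣ) : MK ℂ) = 1) :
    (∀ {n r : ℕ} (f : Fin r → MvPolynomial (Fin n) ℂ), (∃ j, f j ≠ 0) →
      (∀ j, constantCoeff (f j) = 0) →
      ∃ (κ m s : ℕ) (F : Fin s → MvPolynomial (Fin m) ℂ) (π : Fin n → Fin m), m = n + κ ∧ Par F ∧
        (∃ j, F j ≠ 0) ∧ (∀ j, constantCoeff (F j) = 0) ∧
        (1 - cYk κ * PowerSeries.X) * DI0 F = cYk κ * (1 - PowerSeries.X) * rsk κ (DI0 f) ∧
        (∀ s₀ : ℚ, s₀ < 0 → IsPole (ZmotI f {0}) s₀ → IsPole (ZmotI F {0}) (s₀ - κ)) ∧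
        EigRel χ f F π ∧ (MonFor χ F → MonFor χ f)) ∧
    ((∀ (n r : ℕ) (f : Fin r → MvPolynomial (Fin n) ℂ), (∃ j, f j ≠ 0) →
        (∀ j, constantCoeff (f j) = 0) → MonFor χ f) ↔
      ∀ (n r : ℕ) (f : Fin r → MvPolynomial (Fin n) ℂ), Par f → (∃ j, f j ≠ 0) →
        (∀ j, constantCoeff (f j) = 0) → MonFor χ f) := by
  refine ⟨fun {n r} f hf h1 => ?_, fun h n r f _ => h n r f, fun h n r f hf h1 => ?_⟩
  · obtain ⟨κ, m, s, F, π, hm, hF, hl, he⟩ := exists_par' hχ f
    refine ⟨κ, m, s, F, π, hm, hF, hl.ne hf, hl.const h1, hl.loc, fun s₀ h0 h2 => ?_, he,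
      monFor_of hl he⟩
    rw [isPole_ZmotI] at h2 ⊢
    exact hl.lpole s₀ h0 h2
  · obtain ⟨κ, m, s, F, π, -, hF, hl, he⟩ := exists_par' hχ f
    exact monFor_of hl he (h m s F hF (hl.ne hf) (hl.const h1))

end Pool.Agent.Results.MP_4e5fcd_ag.LinearAndParabolasLocal
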