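import Pool.Agent.Run7.h827.MT.Main

set_option autoImplicit false

/-! # The motivic monodromy conjecture for products of ideals of minors of products of matrices

Let a rooted forest be given, with the vertices `v < K`, and let `m ≤ n_v` be numbers (`MTree`). For
each vertex `v` let `X_v` be a matrix of independent variables, with `n_v` columns, and with `m`
rows if `v` is a root and `n_u` rows if `u` is the parent of `v`. Let `P_v` be the product of the
matrices along the path from the root to `v`, an `m × n_v` matrix: `P_v = X_v` for the roots, and
`P_v = P_u X_v` if `u` is the parent of `v` (`MTree.pm`). For `q = (v, i)`, `i < m` (`MTree.Cell`),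
let `I_q` be the ideal of the maximal minors of the matrix of the first `i + 1` rows of `P_v`
(`MTree.gen`). It vanishes where the rank of this matrix is at most `i`. Let `p ≤ q`, `p = (v, i)`,
`q = (w, j)`, if `v` is `w` or an ancestor of `w`, and `i ≤ j` (`MTree.Le`). Let `e q` be exponents,
and let `I = ∏ q, I_q ^ e q`. It is generated by the products of such minors, `e q` of them of the
first `i + 1` rows of `P_v`, for each `q = (v, i)` (`MTree.prod`). We assume that the set of the `q`
with `e q > 0` is closed downwards. For instance, if `m = 1`, these may be the ideals of the entries
of all the products `X_{v_1} ⋯ X_{v_k}` of a row vector and of matrices, along the paths which begin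
in a root; there is no other condition on the exponents.

The resolution. Let `D` be the set of the `q` with `e q > 0`, and let `E_p`, `p = (v, i) ∈ D`, be
obtained in the order of the vertices `v`, the parents before their children, and for each vertex in
the order of the `i`, as follows. Suppose that, for the parent `u` of `v`, the matrix of the first
rows of `P_u` has been written, locally, as a lower triangular matrix, with monomials in the
equations of the previous divisors on the diagonal, times a matrix `U_u` whose rows are linearly
independent at each point (for the roots `v` let `U_u` be the identity matrix). Then the rows `y_0,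
y_1, …` of `U_u X_v` are independent vectors of free coordinates. One blows up, in the order of the
`i`, the subvariety on which `y_i` is in the span of the rows `0, …, i - 1` of `U_v`, which have
been constructed before; it is smooth, of codimension `n_v - i`, and it crosses the previous
divisors transversely; after the blow-up `y_i` is a combination of these rows plus the equation of
`E_{(v, i)}` times a further vector, the row `i` of `U_v`. So one obtains a smooth variety `Y` on
which the `E_p`, `p ∈ D`, cross normally, the multiplicity of the Jacobian determinant along `E_p`
is `ν_p - 1` with `ν_p = n_v - i`, and `I_q`, `q ∈ D`, becomes the ideal of the divisor `∑_{p ≤ q}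
E_p`, by the formula of Cauchy and Binet. (If `ν_p = 1` then `E_p` is not exceptional but the strict
transform of the zeros of a determinant.) So `Y` is a principalization of `I`, with the components
`E_p`, of multiplicity `N_p = ∑_{q ≥ p} e q` (`MTree.mulJ`, `MTree.nuJ`; in these definitions all
the pairs `p` are listed, those not in `D` have the multiplicity `0` and do not matter). By the
formula of Denef and Loeser the motivic zeta function of `I` (global, or local at the origin) is of
the form `dlZ`.

The proof. A residue computation at a general point of `E_p` gives the roots, since `E_p` is a Rees
divisor of `I` (`rees_prod`). The chart (`xi`), for `p = (v, s)`: the entries `(s, c)`, `c ≥ s`, of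
`X_v` are such that the row `s` of `P_v` is `∑_k q_k (row k of P_v) + z w` (`row_v`), the sum over
the `k < s`, where the `q_k` are determined by the first `s` columns, and `w = (0, …, 0, 1, w_{s +
1}, …)` with coordinates `w_c` (`wS`); all the other entries are coordinates `X + c` with constants
`c`, which are `λ` on the diagonals of the matrices (except at `(s, s)` for `X_v`) and `0` elsewhere
(`bs`). The quotients of the minors of the first `s + 1` rows of `P_v` by one of them are these
coordinates (`MM_Jc`), so `E_p` is a Rees divisor as soon as `e p > 0`. For the local functional
equations the base point has to lie over a point of the affine space at which a given polynomial `H`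
with `H(0) ≠ 0` does not vanish: `λ` is a general number (`exists_mul`). -/

namespace Pool.Agent.Results.MP_4e5fcd_ag.MatrixProducts

open Pool.Agent.W574.SM Pool.Agent.W574.LM Pool.Agent.TH192.DT Pool.Agent.Run7.h827.MT

/-- **The motivic monodromy conjecture for the ideals** `I = ∏ q, I_q ^ e q`, products of powers of the
ideals of the maximal minors of the first rows of the products `P_v` of generic matrices along the
paths of a rooted forest, if the set of the `q` with `e q > 0` is closed downwards. Let `ν_p = n_v -
i`, `p = (v, i)`, and `N_p = ∑_{q ≥ p} e q`. Every sum `dlZ` of the form of the formula of Denef and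
Loeser, with arbitrary coefficients in a ring (the classes of the strata), lies in the ring
generated by `T` and the `1 / (1 - u ^ (-ν_p) T ^ (N_p))`, `N_p > 0`, and all the numbers `-ν_p /
N_p` are roots of every `b` for which `H b` satisfies a functional equation of the generators of `I`
for some polynomial `H` with `H(0) ≠ 0`, in particular of the local Bernstein-Sato polynomial of `I`
at the origin, and (`H = 1`) of the global one. -/
theorem result (G : MTree) (e : G.Cell → ℕ)
    (hd : ∀ p q : G.Cell, G.Le p q → e q ≠ 0 → e p ≠ 0) :
    (∀ (R : Type) [CommRing R] (u : Rˣ) (χ : Finset {p // 0 < G.mulJ e p} → R),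
      dlZ u (G.nuJ) (G.mulJ e) χ ∈ ratU u (pairs (G.nuJ) (G.mulJ e) : Set (ℤ × ℤ))) ∧
    ∀ q ∈ pairs (G.nuJ) (G.mulJ e), q.1 < 0 ∧ 0 < q.2 ∧
      ∀ (b : Polynomial ℂ) (H : MvPolynomial G.Var ℂ),
        MvPolynomial.constantCoeff H ≠ 0 →
          IsLocEq H (G.prod e) b → b.eval ((q.1 : ℂ) / q.2) = 0 := by
  refine ⟨fun R _ u χ => dlZ_mem u _ _ χ, fun q hq => ?_⟩
  have h2 := pairs_sign _ _ (fun p => Nat.succ_pos _) q hq
  exact ⟨h2.1, h2.2, fun b H hH hb => pairs_roots _ _ (fun p => Nat.succ_pos _) b
    (one_roots G e hd b H hH hb) q hq⟩

end Pool.Agent.Results.MP_4e5fcd_ag.MatrixProducts
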