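import Pool.Agent.Run7.h827.NE.Main

set_option autoImplicit false

/-! # The motivic monodromy conjecture for products of northeast ideals of maximal minors

Let `x = (x_{i,j})`, `0 ≤ i < m`, `0 ≤ j < n`, be the generic `m × n` matrix. For `q = (i, j)` with
`i + j < n` (`Cell m n`) let `I_q` be the ideal of the maximal minors of the northeast matrix which
consists of the first `i + 1` rows and of the last `n - j` columns of `x`: the northeast ideals of
maximal minors of Bruns and Conca, which are the Borel fixed ideals of maximal minors (`neGen m n
q`). It vanishes where the rank of this matrix is at most `i`, a subset of codimension `n - i - j`.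
Let `e q` be exponents, and let `I = ∏ q, I_q ^ e q`. It is generated by the products of such
minors, `e q` of them from the matrix of `q`, for each `q` (`neProd m n e`). We assume that the set
of the cells `q` with `e q > 0` is closed downwards. For instance, if `m ≤ n`, the `e q > 0` may be
those of the `I_{(i, 0)}`, `i < r`, the ideals of the maximal minors of the first `i + 1` rows, or
those of the `I_{(i, j)}` with `i < r`, `j < c`; there is no other condition on the exponents.

The resolution. Let `D` be the set of the cells `q` with `e q > 0`, and let `E_p`, `p = (i, j) ∈ D`,
be obtained in the order of the rows `i`, and in each row in the order of the `j`, as follows.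
Suppose that the `E_p` of the previous rows have been constructed, and that the `i`-vectors `x_0 ∧ …
∧ x_{i - 1}`, restricted to the columns `≥ j`, are, up to a monomial in the equations of these
divisors, nowhere vanishing, and so define a subspace `Λ_j` of dimension `i` of `ℂ ^ (n - j)`. The
condition that the row `x_i`, restricted to the columns `≥ j`, is in `Λ_j`, defines a smooth
subvariety `Z_j` of codimension `n - i - j`, which crosses the previous divisors transversely, since
the entries of the row `x_i` are free coordinates; and `Z_0 ⊆ Z_1 ⊆ …`, since the quotients of the
`ℂ ^ (n - j)` by the `Λ_j` are mapped onto each other. Blow up `Z_0` and the strict transforms of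
`Z_1, Z_2, …`, in this order; they are again smooth and transverse. So one obtains a smooth variety
`Y` on which the `E_p`, `p ∈ D`, cross normally, the multiplicity of the Jacobian determinant along
`E_p` is `ν_p - 1` with `ν_p = n - i - j`, and `I_q`, `q ∈ D`, becomes the ideal of the divisor
`∑_{p ≤ q} E_p`. (If `ν_p = 1` then `E_p` is not exceptional but the strict transform of the zeros
of a determinant.) So `Y` is a principalization of `I`, with the components `E_p`, of multiplicity
`N_p = ∑_{q ≥ p} e q` (`mulJ`, `nuJ`; in these definitions all the cells are listed, those not in
`D` have the multiplicity `0` and do not matter). By the formula of Denef and Loeser the motivic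
zeta function of `I` (global, or local at the origin) is of the form `dlZ`.

The proof. A residue computation at a general point of `E_p` gives the roots, since `E_p` is a Rees
divisor of `I` (`rees_prod`). The chart (`xi`), for `p = (i, j)`: the entries of the row `x_i` in
the last `i` columns, in the columns `< j`, and the entries of all the other rows are coordinates `X
+ c` with constants `c`, which are `λ` at the places of a partial permutation matrix and `0`
elsewhere; the other entries of the row `x_i` are `∑_k q_k x_k + z w`, where the `q_k` are
determined by the last `i` columns, and `w = 1` in one column and a coordinate in the other ones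
(`wS`). The quotients of the minors of the matrix of `p` by one of them are these coordinates
(`NM_Jc`), so `E_p` is a Rees divisor as soon as `e p > 0`. For the local functional equations the
base point has to lie over a point of the affine space at which a given polynomial `H` with `H(0) ≠
0` does not vanish: `λ` is a general number (`exists_mul`). -/

namespace Pool.Agent.Results.MP_4e5fcd_ag.NortheastMinors

open Pool.Agent.W574.SM Pool.Agent.W574.LM Pool.Agent.TH192.DT Pool.Agent.Run7.h827.NE

/-- **The motivic monodromy conjecture for products of powers of northeast ideals of maximal minors** `I
= ∏ q, I_q ^ e q`, if the set of the cells `q` with `e q > 0` is closed downwards. Let `ν_p = n - i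
- j`, `p = (i, j)`, and `N_p = ∑_{q ≥ p} e q`. Every sum `dlZ` of the form of the formula of Denef
and Loeser, with arbitrary coefficients in a ring (the classes of the strata), lies in the ring
generated by `T` and the `1 / (1 - u ^ (-ν_p) T ^ (N_p))`, `N_p > 0`, and all the numbers `-ν_p /
N_p` are roots of every `b` for which `H b` satisfies a functional equation of the generators of `I`
for some polynomial `H` with `H(0) ≠ 0`, in particular of the local Bernstein-Sato polynomial of `I`
at the origin, and (`H = 1`) of the global one. -/
theorem result (m n : ℕ) (e : Cell m n → ℕ)
    (hd : ∀ p q : Cell m n, le p q → e q ≠ 0 → e p ≠ 0) :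
    (∀ (R : Type) [CommRing R] (u : Rˣ) (χ : Finset {p // 0 < mulJ m n e p} → R),
      dlZ u (nuJ m n) (mulJ m n e) χ ∈ ratU u (pairs (nuJ m n) (mulJ m n e) : Set (ℤ × ℤ))) ∧
    ∀ q ∈ pairs (nuJ m n) (mulJ m n e), q.1 < 0 ∧ 0 < q.2 ∧
      ∀ (b : Polynomial ℂ) (H : MvPolynomial (Fin m × Fin n) ℂ),
        MvPolynomial.constantCoeff H ≠ 0 →
          IsLocEq H (neProd m n e) b → b.eval ((q.1 : ℂ) / q.2) = 0 := by
  refine ⟨fun R _ u χ => dlZ_mem u _ _ χ, fun q hq => ?_⟩
  have h2 := pairs_sign _ _ (fun p => Nat.succ_pos _) q hq
  exact ⟨h2.1, h2.2, fun b H hH hb => pairs_roots _ _ (fun p => Nat.succ_pos _) b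
    (one_roots m n e hd b H hH hb) q hq⟩

end Pool.Agent.Results.MP_4e5fcd_ag.NortheastMinors
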